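import Mathlib

set_option autoImplicit false

namespace Pool.Agent.Results.MP_395ab6_co.Counter

open Finset Polynomial

section
variable {ι : Type} [Fintype ι] [DecidableEq ι]

noncomputable def u (a b : ι → ℂ) (S : Finset ι) : ℂ := (∏ i ∈ S, a i) * ∏ i ∈ Sᶜ, b i

noncomputable def cf (a b : ι → ℂ) (k : ℕ) : ℂ := ∑ S ∈ powersetCard k univ, u a b S

theorem cf_eq (a b : ι → ℂ) (k : ℕ) : (∏ i, (C (a i) * X + C (b i))).coeff k = cf a b k := by
  rw [prod_add, finsetSum_coeff, cf, powersetCard_eq_filter, sum_filter]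
  refine sum_congr rfl fun S _ => ?_
  rw [prod_mul_distrib, prod_const, ← map_prod, ← map_prod, ← compl_eq_univ_sdiff, mul_right_comm,
    ← C_mul, coeff_C_mul, coeff_X_pow, u]
  split_ifs with h1 h2 h2 <;> first | omega | simp

theorem W_eq (a b : ι → ℂ) (S : Finset ι) : ∑ σ : Equiv.Perm ι, u a b (S.map σ.toEmbedding) =
    (S.card.factorial * (Fintype.card ι - S.card).factorial : ℕ) * cf a b S.card := by
  have h1 : ∀ T ∈ powersetCard S.card (univ : Finset ι),
      ∑ σ : Equiv.Perm ι, u a b (T.map σ.toEmbedding) = ∑ σ : Equiv.Perm ι, u a b (S.map σ.toEmbedding) := by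
    intro T hT
    obtain ⟨τ, rfl⟩ := Equiv.Perm.exists_map_finset_eq S T (mem_powersetCard.1 hT).2.symm
    refine Fintype.sum_equiv (Equiv.mulRight τ) _ _ fun σ => ?_
    rw [map_map]; rfl
  have h2 : ∀ σ : Equiv.Perm ι, ∑ T ∈ powersetCard S.card (univ : Finset ι),
      u a b (T.map σ.toEmbedding) = cf a b S.card := by
    intro σ
    refine sum_bijective (fun T => T.map σ.toEmbedding) (Equiv.finsetCongr σ).bijective ?_ ?_
    · intro T; simp
    · intro T _; rfl
  have h3 := sum_congr rfl h1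
  rw [sum_comm, sum_congr rfl fun σ _ => h2 σ, sum_const, sum_const, card_powersetCard, card_univ,
    card_univ, Fintype.card_perm, nsmul_eq_mul, nsmul_eq_mul,
    ← Nat.choose_mul_factorial_mul_factorial S.card_le_univ] at h3
  have h4 : ((Fintype.card ι).choose S.card : ℂ) ≠ 0 := by
    exact_mod_cast (Nat.choose_pos S.card_le_univ).ne'
  apply mul_left_cancel₀ h4
  rw [← h3]; push_cast; ring

theorem per_eq (a b : ι → ℂ) :
    (Matrix.of fun i j => a i * star (a j) + b i * star (b j)).permanent =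
      ∑ k ∈ range (Fintype.card ι + 1),
        (k.factorial * (Fintype.card ι - k).factorial : ℕ) * (cf a b k * star (cf a b k)) := by
  have h1 : ∀ σ : Equiv.Perm ι, ∏ i, (a (σ i) * star (a i) + b (σ i) * star (b i)) =
      ∑ S ∈ (univ : Finset ι).powerset, u a b (S.map σ.toEmbedding) * star (u a b S) := by
    intro σ
    rw [prod_add]
    refine sum_congr rfl fun S _ => ?_
    have : (S.map σ.toEmbedding)ᶜ = Sᶜ.map σ.toEmbedding := by
      ext x; simp
    rw [u, u, this, prod_map, prod_map, prod_mul_distrib, prod_mul_distrib, ← compl_eq_univ_sdiff,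
      star_mul', star_prod, star_prod]
    simp only [Equiv.coe_toEmbedding]; ring
  simp only [Matrix.permanent, Matrix.of_apply, h1]
  rw [sum_comm, powerset_card_disjiUnion, sum_disjiUnion, card_univ]
  refine sum_congr rfl fun k _ => ?_
  rw [cf, star_sum, mul_sum, mul_sum]
  refine sum_congr rfl fun S hS => ?_
  rw [← sum_mul, W_eq, (mem_powersetCard.1 hS).2, cf, mul_assoc]
end

def fz {α : Type} (c : ℤ) (k : ℤ → α) : α :=
  match c with
  | .ofNat 0 => k 0
  | .ofNat (n + 1) => k (.ofNat (n + 1))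
  | .negSucc 0 => k (.negSucc 0)
  | .negSucc (n + 1) => k (.negSucc (n + 1))

theorem fz_eq {α : Type} (c : ℤ) (k : ℤ → α) : fz c k = k c := by
  unfold fz; split <;> rfl

def step (a x y : ℤ) : ℤ × ℤ → List (ℤ × ℤ) → List (ℤ × ℤ)
  | p, [] => [(a * p.1, a * p.2)]
  | p, c :: cs => fz (a * p.1 + (x * c.1 - y * c.2)) fun r => fz (a * p.2 + (x * c.2 + y * c.1)) fun s =>
      (r, s) :: step a x y c cs

def D : List (ℤ × ℤ × ℤ) → List (ℤ × ℤ)
  | [] => [(1, 0)]
  | v :: l => step v.1 v.2.1 v.2.2 (0, 0) (D l)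

noncomputable def toC (p : ℤ × ℤ) : ℂ := p.1 + p.2 * Complex.I

theorem step_get (a x y : ℤ) : ∀ (l : List (ℤ × ℤ)) (p : ℤ × ℤ) (k : ℕ),
    toC ((step a x y p l).getD k (0, 0)) =
      a * toC ((p :: l).getD k (0, 0)) + toC (x, y) * toC (l.getD k (0, 0))
  | [], p, 0 => by simp [step, toC]; ring
  | [], p, k + 1 => by simp [step, toC]
  | c :: cs, p, 0 => by
    simp only [step, fz_eq, List.getD_cons_zero, toC]; push_cast
    linear_combination (-(y : ℂ) * c.2) * Complex.I_mul_I
  | c :: cs, p, k + 1 => by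
    simp only [step, fz_eq, List.getD_cons_succ]; exact step_get a x y cs c k

theorem D_get : ∀ (l : List (ℤ × ℤ × ℤ)) (k : ℕ),
    (l.map fun v : ℤ × ℤ × ℤ => C (v.1 : ℂ) * X + C (toC v.2)).prod.coeff k = toC ((D l).getD k (0, 0))
  | [], 0 => by simp [D, toC]
  | [], k + 1 => by simp [D, toC, coeff_one]
  | v :: l, k => by
    rw [List.map_cons, List.prod_cons, add_mul, coeff_add, mul_assoc, coeff_C_mul, coeff_C_mul, D,
      step_get, D_get l k]
    cases k with
    | zero => simp [toC]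
    | succ k => rw [coeff_X_mul, D_get l k]; simp

def N (n : ℕ) (l : List (ℤ × ℤ × ℤ)) : ℤ :=
  ∑ k ∈ range (n + 1), (k.factorial * (n - k).factorial : ℕ) *
    (((D l).getD k (0, 0)).1 ^ 2 + ((D l).getD k (0, 0)).2 ^ 2)

noncomputable def G {ι : Type} (v : ι → ℤ × ℤ × ℤ) : Matrix ι ι ℂ :=
  Matrix.of fun i j => ((v i).1 : ℂ) * star ((v j).1 : ℂ) + toC (v i).2 * star (toC (v j).2)

theorem per_G (n : ℕ) (v : Fin n → ℤ × ℤ × ℤ) : (G v).permanent = N n (List.ofFn v) := by
  rw [G, per_eq, N, Fintype.card_fin]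
  push_cast
  refine sum_congr rfl fun k _ => ?_
  rw [← cf_eq, ← List.prod_ofFn, show (List.ofFn fun i => C ((v i).1 : ℂ) * X + C (toC (v i).2)) =
    (List.ofFn v).map fun v : ℤ × ℤ × ℤ => C (v.1 : ℂ) * X + C (toC v.2) by rw [List.map_ofFn]; rfl, D_get]
  congr 1
  simp only [toC, star_add, star_mul', Complex.star_def, Complex.conj_I, map_intCast]
  linear_combination (-(((D (List.ofFn v)).getD k (0, 0)).2 : ℂ) ^ 2) * Complex.I_mul_I

def w (i : Fin 14) : ℤ × ℤ × ℤ :=
  [(1, 0, 0), (2, -2, 0), (3, -1, 2), (3, 3, 1), (2, 1, -1), (2, -2, 2), (3, -1, -1), (1, -2, -1),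
    (3, 2, -3), (1, 3, -1), (2, 1, 3), (0, -2, 3), (2, 1, 1), (2, -1, -3)].getD i.1 (0, 0, 0)

theorem c1 : N 14 (List.ofFn w) = 100665888042398515200 := by decide +kernel

theorem c2 : ∑ k : Fin 13, (w k.succ).1 ^ 2 * N 12 (List.ofFn fun j => w (k.succAbove j).succ) =
    102056078083937402880 := by decide +kernel

open scoped ComplexOrder in
theorem result : ∃ (m : ℕ) (A : Matrix (Fin (m + 2)) (Fin (m + 2)) ℂ), A.PosSemidef ∧
    ∃ x y : ℝ, A.permanent = x ∧
      ∑ k : Fin (m + 1), ((‖A 0 k.succ‖ ^ 2 : ℝ) : ℂ) *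
        (A.submatrix (fun j => (k.succAbove j).succ) fun j => (k.succAbove j).succ).permanent = y ∧
      x < y := by
  refine ⟨12, G w, ?_, 100665888042398515200, 102056078083937402880, ?_, ?_, by norm_num⟩
  · have : G w = (Matrix.of fun i (t : Fin 2) => ![((w i).1 : ℂ), toC (w i).2] t) *
        (Matrix.of fun i (t : Fin 2) => ![((w i).1 : ℂ), toC (w i).2] t).conjTranspose := by
      ext i j
      simp [G, Matrix.mul_apply, Fin.sum_univ_two]
    rw [this]
    exact Matrix.posSemidef_self_mul_conjTranspose _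
  · rw [per_G, c1]; norm_num
  · have h := congrArg (Int.cast : ℤ → ℂ) c2
    push_cast at h ⊢
    rw [← h]
    refine sum_congr rfl fun k _ => ?_
    rw [← per_G]
    congr 1
    have : G w 0 k.succ = ((w k.succ).1 : ℂ) := by
      have : w 0 = (1, 0, 0) := rfl
      simp [G, this, toC]
    rw [this, Complex.norm_intCast]
    exact_mod_cast sq_abs (w k.succ).1

end Pool.Agent.Results.MP_395ab6_co.Counter
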